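import Pool.Agent.H25.MF.Targets

/-!
# Board `mf_modules`, row GB: bounds for the two parts of the smoothed function
-/

set_option autoImplicit false

open Complex MeasureTheory Filter Topology

namespace Pool.Agent.H49.MF

open Pool.Agent.H25.MF

theorem pow_le_exp (k : ℕ) (x : ℝ) (hx : 0 ≤ x) : x ^ k ≤ (k.factorial : ℝ) * Real.exp x := by
  have h1 := Real.pow_div_factorial_le_exp x hx k
  have h2 : (0 : ℝ) < (k.factorial : ℝ) := by exact_mod_cast k.factorial_pos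
  rw [div_le_iff₀ h2] at h1
  linarith

/-- The dominating function is integrable. -/
theorem integrable_dom (k : ℕ) (τ : ℝ) (hτ : 0 < τ) :
    Integrable (fun t : ℝ => (1 + |t|) ^ k * Real.exp (-(τ ^ 2 * t ^ 2 / 2))) := by
  have hb : 0 < τ ^ 2 / 4 := by positivity
  have h1 : Integrable (fun t : ℝ => ((k.factorial : ℝ) * Real.exp (1 + 1 / τ ^ 2)) *
      Real.exp (-(τ ^ 2 / 4) * t ^ 2)) := (integrable_exp_neg_mul_sq hb).const_mul _
  refine h1.mono' ?_ ?_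
  · apply Continuous.aestronglyMeasurable
    fun_prop
  · refine Filter.Eventually.of_forall fun t => ?_
    rw [Real.norm_of_nonneg (by positivity)]
    have h2 := pow_le_exp k (1 + |t|) (by positivity)
    have h3 : |t| ≤ τ ^ 2 * t ^ 2 / 4 + 1 / τ ^ 2 := by
      have h4 : 0 ≤ (τ * |t| / 2 - 1 / τ) ^ 2 := sq_nonneg _
      have h5 : (τ * |t| / 2 - 1 / τ) ^ 2 = τ ^ 2 * t ^ 2 / 4 + 1 / τ ^ 2 - |t| := by
        have h6 : |t| ^ 2 = t ^ 2 := sq_abs t
        field_simp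
        ring_nf
        rw [h6]
      linarith
    calc (1 + |t|) ^ k * Real.exp (-(τ ^ 2 * t ^ 2 / 2))
        ≤ ((k.factorial : ℝ) * Real.exp (1 + |t|)) * Real.exp (-(τ ^ 2 * t ^ 2 / 2)) :=
          mul_le_mul_of_nonneg_right h2 (Real.exp_pos _).le
      _ = (k.factorial : ℝ) * Real.exp (1 + |t| + -(τ ^ 2 * t ^ 2 / 2)) := by
          rw [mul_assoc, ← Real.exp_add]
      _ ≤ (k.factorial : ℝ) * Real.exp (1 + 1 / τ ^ 2 + -(τ ^ 2 / 4) * t ^ 2) := by
          apply mul_le_mul_of_nonneg_left _ (Nat.cast_nonneg _)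
          apply Real.exp_le_exp.2
          linarith
      _ = ((k.factorial : ℝ) * Real.exp (1 + 1 / τ ^ 2)) * Real.exp (-(τ ^ 2 / 4) * t ^ 2) := by
          rw [mul_assoc, ← Real.exp_add]

/-- Bound for the contour integral. -/
theorem rep_bound (H : ℂ → ℂ) (hB : Bd H) (τ : ℝ) (hτ : 0 < τ) :
    ∃ D : ℝ, 0 ≤ D ∧ ∀ δ v : ℝ, 0 < |δ| → |δ| ≤ 3 / 4 →
      ‖rep H τ δ v‖ ≤ D * Real.exp (δ * v) / |δ| := by
  obtain ⟨C, k, hC⟩ := hB
  set J : ℝ := ∫ t : ℝ, (1 + |t|) ^ k * Real.exp (-(τ ^ 2 * t ^ 2 / 2)) with hJ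
  have hJ0 : 0 ≤ J := integral_nonneg fun t => by positivity
  refine ⟨(2 * Real.pi)⁻¹ * (|C| * Real.exp (τ ^ 2) * J), by positivity, ?_⟩
  intro δ v h0 h1
  have hnorm : ‖(2 * Real.pi : ℂ)⁻¹‖ = (2 * Real.pi)⁻¹ := by
    rw [norm_inv, norm_mul, Complex.norm_real, Real.norm_of_nonneg Real.pi_pos.le]
    simp
  unfold rep
  rw [norm_mul, hnorm]
  have hdom := (integrable_dom k τ hτ).const_mul (|C| * Real.exp (τ ^ 2) * Real.exp (δ * v) / |δ|)
  have hle : ‖∫ t : ℝ, H (δ + t * I) * cexp ((δ + t * I) * v + τ ^ 2 * (δ + t * I) ^ 2 / 2)‖ ≤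
      ∫ t : ℝ, (|C| * Real.exp (τ ^ 2) * Real.exp (δ * v) / |δ|) *
        ((1 + |t|) ^ k * Real.exp (-(τ ^ 2 * t ^ 2 / 2))) := by
    refine norm_integral_le_of_norm_le hdom (Filter.Eventually.of_forall fun t => ?_)
    have hre : ((δ : ℂ) + t * I).re = δ := by simp
    have him : ((δ : ℂ) + t * I).im = t := by simp
    have hH : ‖H (δ + t * I)‖ ≤ |C| * (1 + |t|) ^ k / |δ| := by
      have h2 := hC (δ + t * I) (by rw [hre]; exact h0) (by rw [hre]; exact h1)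
      rw [hre, him] at h2
      refine h2.trans ?_
      apply div_le_div_of_nonneg_right _ h0.le
      exact mul_le_mul_of_nonneg_right (le_abs_self C) (by positivity)
    have hex : ‖cexp ((δ + t * I) * v + τ ^ 2 * (δ + t * I) ^ 2 / 2)‖ =
        Real.exp (δ * v + τ ^ 2 * (δ ^ 2 - t ^ 2) / 2) := by
      rw [Complex.norm_exp]
      congr 1
      have e : ((δ : ℂ) + t * I) * v + τ ^ 2 * (δ + t * I) ^ 2 / 2 =
          ((δ * v + τ ^ 2 * (δ ^ 2 - t ^ 2) / 2 : ℝ) : ℂ) + ((t * v + τ ^ 2 * (δ * t) : ℝ) : ℂ) * I := by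
        push_cast
        have hI : I ^ 2 = -1 := Complex.I_sq
        ring_nf
        rw [hI]
        ring
      rw [e, Complex.add_re, Complex.ofReal_re, Complex.re_ofReal_mul, Complex.I_re, mul_zero,
        add_zero]
    rw [norm_mul, hex]
    have hδ2 : δ ^ 2 ≤ 1 := by
      rw [← sq_abs]
      nlinarith
    have hexp : Real.exp (δ * v + τ ^ 2 * (δ ^ 2 - t ^ 2) / 2) ≤
        Real.exp (τ ^ 2) * Real.exp (δ * v) * Real.exp (-(τ ^ 2 * t ^ 2 / 2)) := by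
      rw [← Real.exp_add, ← Real.exp_add]
      apply Real.exp_le_exp.2
      nlinarith [sq_nonneg τ, mul_nonneg (sq_nonneg τ) (sub_nonneg.2 hδ2)]
    calc ‖H (δ + t * I)‖ * Real.exp (δ * v + τ ^ 2 * (δ ^ 2 - t ^ 2) / 2)
        ≤ (|C| * (1 + |t|) ^ k / |δ|) *
          (Real.exp (τ ^ 2) * Real.exp (δ * v) * Real.exp (-(τ ^ 2 * t ^ 2 / 2))) :=
          mul_le_mul hH hexp (Real.exp_pos _).le (by positivity)
      _ = (|C| * Real.exp (τ ^ 2) * Real.exp (δ * v) / |δ|) *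
        ((1 + |t|) ^ k * Real.exp (-(τ ^ 2 * t ^ 2 / 2))) := by ring
  rw [integral_const_mul] at hle
  calc (2 * Real.pi)⁻¹ *
      ‖∫ t : ℝ, H (δ + t * I) * cexp ((δ + t * I) * v + τ ^ 2 * (δ + t * I) ^ 2 / 2)‖
      ≤ (2 * Real.pi)⁻¹ * ((|C| * Real.exp (τ ^ 2) * Real.exp (δ * v) / |δ|) * J) :=
        mul_le_mul_of_nonneg_left hle (by positivity)
    _ = (2 * Real.pi)⁻¹ * (|C| * Real.exp (τ ^ 2) * J) * Real.exp (δ * v) / |δ| := by ring

/-- The two bounds which follow from the family of bounds. -/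
theorem two_bounds (D x v : ℝ) (hD : 0 ≤ D)
    (h : ∀ δ : ℝ, 0 < δ → δ ≤ 3 / 4 → x ≤ D * Real.exp (δ * v) / δ) :
    x ≤ (4 / 3 * D * Real.exp 1) * (1 + |v|) ∧
      x ≤ (4 / 3 * D * Real.exp 1) * Real.exp (3 / 4 * v) := by
  have hv : 0 < 1 + |v| := by positivity
  constructor
  · have h1 := h (3 / (4 * (1 + |v|))) (by positivity) (by
      rw [div_le_div_iff₀ (by positivity) (by norm_num)]
      nlinarith [abs_nonneg v])
    have h2 : 3 / (4 * (1 + |v|)) * v ≤ 1 := by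
      rw [div_mul_eq_mul_div, div_le_one (by positivity)]
      nlinarith [le_abs_self v, abs_nonneg v]
    have h3 : Real.exp (3 / (4 * (1 + |v|)) * v) ≤ Real.exp 1 := Real.exp_le_exp.2 h2
    calc x ≤ D * Real.exp (3 / (4 * (1 + |v|)) * v) / (3 / (4 * (1 + |v|))) := h1
      _ ≤ D * Real.exp 1 / (3 / (4 * (1 + |v|))) := by
          apply div_le_div_of_nonneg_right _ (by positivity)
          exact mul_le_mul_of_nonneg_left h3 hD
      _ = (4 / 3 * D * Real.exp 1) * (1 + |v|) := by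
          field_simp
  · have h1 := h (3 / 4) (by norm_num) le_rfl
    have h2 : (1 : ℝ) ≤ Real.exp 1 := Real.one_le_exp (by norm_num)
    calc x ≤ D * Real.exp (3 / 4 * v) / (3 / 4) := h1
      _ = (4 / 3 * D * 1) * Real.exp (3 / 4 * v) := by ring
      _ ≤ (4 / 3 * D * Real.exp 1) * Real.exp (3 / 4 * v) := by
          apply mul_le_mul_of_nonneg_right _ (Real.exp_pos _).le
          exact mul_le_mul_of_nonneg_left h2 (by positivity)

theorem pf_GB (hFR : T_FR) (hSL : T_SL) : T_GB := by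
  intro g H hH τ hτ
  obtain ⟨D, hD, hb⟩ := rep_bound H hH.bd τ hτ
  refine ⟨4 / 3 * D * Real.exp 1, fun v => ?_⟩
  obtain ⟨h1, h2⟩ := hFR g H hH τ v hτ
  have e1 : ∀ δ : ℝ, 0 < δ → δ ≤ 3 / 4 → |smp g τ v| ≤ D * Real.exp (δ * v) / δ := by
    intro δ hδ hδ'
    have h3 := (hSL H hH.df hH.bd τ v δ hτ hδ hδ').1
    have h4 : |smp g τ v| = ‖rep H τ δ v‖ := by
      rw [← h3, ← h1, Complex.norm_real, Real.norm_eq_abs]
    rw [h4]
    have h5 := hb δ v (by rw [abs_of_pos hδ]; exact hδ) (by rw [abs_of_pos hδ]; exact hδ')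
    rw [abs_of_pos hδ] at h5
    exact h5
  have e2 : ∀ δ : ℝ, 0 < δ → δ ≤ 3 / 4 → |smm g τ v| ≤ D * Real.exp (δ * (-v)) / δ := by
    intro δ hδ hδ'
    have h3 := (hSL H hH.df hH.bd τ v δ hτ hδ hδ').2
    have h4 : |smm g τ v| = ‖rep H τ (-δ) v‖ := by
      rw [← h3, ← norm_neg, ← h2, Complex.norm_real, Real.norm_eq_abs]
    rw [h4]
    have hn : |(-δ)| = δ := by rw [abs_neg, abs_of_pos hδ]
    have h5 := hb (-δ) v (by rw [hn]; exact hδ) (by rw [hn]; exact hδ')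
    rw [hn] at h5
    have e : -δ * v = δ * (-v) := by ring
    rw [e] at h5
    exact h5
  obtain ⟨a1, a2⟩ := two_bounds D _ v hD e1
  obtain ⟨b1, b2⟩ := two_bounds D _ (-v) hD e2
  refine ⟨a1, a2, ?_, ?_⟩
  · rw [abs_neg] at b1
    exact b1
  · have e : 3 / 4 * (-v) = -(3 / 4 * v) := by ring
    rw [e] at b2
    exact b2

end Pool.Agent.H49.MF
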